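import Pool.Agent.Helper14_DK.Stmts

/-!
# DUAL: existence of the solution from the key lemma (MP_d7b937_an, part H)
-/

set_option autoImplicit false

namespace Pool.Agent.DK.H9

open MeasureTheory Complex Set Metric Filter
open scoped ContDiff Topology

/-- values of forms -/
abbrev V (n : ℕ) : Type := EuclideanSpace ℂ (Fin n)

/-- square integrable forms on `D` -/
abbrev HH (n : ℕ) (D : Set (E n)) : Type := Lp (V n) 2 (volume.restrict D : Measure (E n))

/-- square integrable functions on `D` -/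
abbrev HF (n : ℕ) (D : Set (E n)) : Type := Lp ℂ 2 (volume.restrict D : Measure (E n))

variable {n : ℕ} {D : Set (E n)}

/-- the vector valued function with components `F j` -/
noncomputable def vf (F : Fin n → E n → ℂ) (z : E n) : V n := WithLp.toLp 2 (fun j => F j z)

theorem vf_memLp {F : Fin n → E n → ℂ} (hF : ∀ j, MemLp (F j) 2 (volume.restrict D)) :
    MemLp (vf F) 2 (volume.restrict D) :=
  memLp_piLp_iff.mpr hF

/-- the element of the Hilbert space with components `F j` -/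
noncomputable def tv (D : Set (E n)) (F : Fin n → E n → ℂ)
    (hF : ∀ j, MemLp (F j) 2 (volume.restrict D)) : HH n D := (vf_memLp hF).toLp (vf F)

theorem tv_coe {F : Fin n → E n → ℂ} (hF : ∀ j, MemLp (F j) 2 (volume.restrict D)) :
    (tv D F hF : E n → V n) =ᵐ[volume.restrict D] vf F := (vf_memLp hF).coeFn_toLp

theorem tv_add {F G K : Fin n → E n → ℂ} (hF : ∀ j, MemLp (F j) 2 (volume.restrict D))
    (hG : ∀ j, MemLp (G j) 2 (volume.restrict D)) (hK : ∀ j, MemLp (K j) 2 (volume.restrict D))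
    (h : ∀ j z, K j z = F j z + G j z) : tv D K hK = tv D F hF + tv D G hG := by
  have e : K = fun j z => F j z + G j z := by funext j z; exact h j z
  subst e
  rfl

theorem tv_smul {F K : Fin n → E n → ℂ} (c : ℂ) (hF : ∀ j, MemLp (F j) 2 (volume.restrict D))
    (hK : ∀ j, MemLp (K j) 2 (volume.restrict D))
    (h : ∀ j z, K j z = c * F j z) : tv D K hK = c • tv D F hF := by
  have e : K = fun j z => c * F j z := by funext j z; exact h j z
  subst e
  rfl

theorem exists_rep (f : HH n D) : ∃ (F : Fin n → E n → ℂ)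
    (hF : ∀ j, MemLp (F j) 2 (volume.restrict D)), f = tv D F hF := by
  refine ⟨fun j z => (f z) j, fun j => memLp_piLp_iff.mp (Lp.memLp f) j, ?_⟩
  exact (Lp.toLp_coeFn f (Lp.memLp f)).symm

theorem inner_tv {F G : Fin n → E n → ℂ} (hF : ∀ j, MemLp (F j) 2 (volume.restrict D))
    (hG : ∀ j, MemLp (G j) 2 (volume.restrict D)) :
    inner ℂ (tv D F hF) (tv D G hG) = ∫ z in D, ∑ j, (starRingEnd ℂ) (F j z) * G j z := by
  rw [L2.inner_def]
  refine integral_congr_ae ?_
  filter_upwards [tv_coe hF, tv_coe hG] with z h1 h2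
  rw [h1, h2, PiLp.inner_apply]
  refine Finset.sum_congr rfl fun j _ => ?_
  rw [RCLike.inner_apply]
  exact mul_comm _ _

theorem norm_sq_lp {V' : Type} [NormedAddCommGroup V'] [InnerProductSpace ℂ V']
    (μ : Measure (E n)) (f : Lp V' 2 μ) : ‖f‖ ^ 2 = ∫ a, ‖f a‖ ^ 2 ∂μ := by
  have h := L2.inner_def (𝕜 := ℂ) f f
  rw [inner_self_eq_norm_sq_to_K] at h
  have e : ∀ a, inner ℂ (f a) (f a) = (((‖f a‖ ^ 2 : ℝ)) : ℂ) := fun a => by
    rw [inner_self_eq_norm_sq_to_K]; push_cast; rfl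
  simp only [e] at h
  have h2 : (∫ a, ((‖f a‖ ^ 2 : ℝ) : ℂ) ∂μ) = ((∫ a, ‖f a‖ ^ 2 ∂μ : ℝ) : ℂ) := integral_ofReal
  have h4 : ((‖f‖ ^ 2 : ℝ) : ℂ) = ((∫ a, ‖f a‖ ^ 2 ∂μ : ℝ) : ℂ) := by
    rw [← h2, ← h]; push_cast; rfl
  exact Complex.ofReal_injective h4

theorem norm_tv {F : Fin n → E n → ℂ} (hF : ∀ j, MemLp (F j) 2 (volume.restrict D)) :
    ‖tv D F hF‖ ^ 2 = ∫ z in D, ∑ j, ‖F j z‖ ^ 2 := by
  rw [norm_sq_lp]
  refine integral_congr_ae ?_
  filter_upwards [tv_coe hF] with z h1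
  rw [h1, EuclideanSpace.norm_sq_eq]
  rfl

/-- the weight -/
noncomputable def W (θ : E n → ℝ) (z : E n) : ℝ := Real.exp (θ z / 2)

theorem W_ne (θ : E n → ℝ) (z : E n) : ((W θ z : ℝ) : ℂ) ≠ 0 := by
  unfold W; exact_mod_cast (Real.exp_pos _).ne'

theorem W_sq (θ : E n → ℝ) (z : E n) : W θ z ^ 2 = Real.exp (θ z) := by
  unfold W; rw [← Real.exp_nat_mul]; congr 1; push_cast; ring

theorem W_smooth {θ : E n → ℝ} (hθ : ContDiffOn ℝ ∞ θ D) : ContDiffOn ℝ ∞ (cx (W θ)) D := by
  apply contDiffOn_cx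
  exact (hθ.div_const 2).exp

theorem W_inv_smooth {θ : E n → ℝ} (hθ : ContDiffOn ℝ ∞ θ D) :
    ContDiffOn ℝ ∞ (fun z => ((W θ z : ℝ) : ℂ)⁻¹) D := by
  exact (W_smooth hθ).inv fun z _ => W_ne θ z

theorem int_D {g : E n → ℂ} (h : ∀ z, z ∉ D → g z = 0) : ∫ z in D, g z = ∫ z, g z :=
  setIntegral_eq_integral_of_forall_compl_eq_zero h

/-! ### the generators of `N` -/

/-- components of the generators -/
noncomputable def gen (θ : E n → ℝ) (j k : Fin n) (v : E n → ℂ) (i : Fin n) (z : E n) : ℂ :=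
  (W θ z : ℂ) * ((if i = j then dz k v z else 0) - (if i = k then dz j v z else 0))

theorem gen_test (hD : IsOpen D) {θ : E n → ℝ} (hθ : ContDiffOn ℝ ∞ θ D) (j k : Fin n)
    {v : E n → ℂ} (hv : IsTest D v) (i : Fin n) : IsTest D (gen θ j k v i) := by
  have h1 : IsTest D (fun z => if i = j then dz k v z else 0) := by
    by_cases h : i = j
    · simp only [if_pos h]; exact hv.dz k
    · simp only [if_neg h]; exact IsTest.zero D
  have h2 : IsTest D (fun z => if i = k then dz j v z else 0) := by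
    by_cases h : i = k
    · simp only [if_pos h]; exact hv.dz j
    · simp only [if_neg h]; exact IsTest.zero D
  exact (h1.sub' h2).mul hD (W_smooth hθ)

theorem gen_memLp (hD : IsOpen D) {θ : E n → ℝ} (hθ : ContDiffOn ℝ ∞ θ D) (j k : Fin n)
    {v : E n → ℂ} (hv : IsTest D v) (i : Fin n) :
    MemLp (gen θ j k v i) 2 (volume.restrict D) :=
  ((gen_test hD hθ j k hv i).memLp 2).restrict D

theorem integrable_W {θ : E n → ℝ} (hD : IsOpen D) (hθ : ContDiffOn ℝ ∞ θ D) {F w : E n → ℂ}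
    (hF : MemLp F 2 (volume.restrict D)) (hw : IsTest D w) :
    Integrable (fun z => (W θ z : ℂ) * F z * w z) := by
  have h1 : IsTest D (fun z => (W θ z : ℂ) * w z) := hw.mul hD (W_smooth hθ)
  have h2 := integrable_mul_test hF h1
  refine h2.congr (Eventually.of_forall fun z => ?_)
  show F z * ((W θ z : ℂ) * w z) = _
  ring

theorem inner_gen (hD : IsOpen D) {θ : E n → ℝ} (hθ : ContDiffOn ℝ ∞ θ D) (j k : Fin n)
    {v : E n → ℂ} (hv : IsTest D v) {F : Fin n → E n → ℂ}
    (hF : ∀ j, MemLp (F j) 2 (volume.restrict D)) :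
    inner ℂ (tv D (gen θ j k v) (gen_memLp hD hθ j k hv)) (tv D F hF) =
      (∫ z, (W θ z : ℂ) * F j z * dbar k (fun y => (starRingEnd ℂ) (v y)) z) -
        ∫ z, (W θ z : ℂ) * F k z * dbar j (fun y => (starRingEnd ℂ) (v y)) z := by
  rw [inner_tv, ← integral_sub (integrable_W hD hθ (hF j) (hv.conj.dbar k))
    (integrable_W hD hθ (hF k) (hv.conj.dbar j))]
  have e : ∀ z, ∑ i, (starRingEnd ℂ) (gen θ j k v i z) * F i z =
      (W θ z : ℂ) * F j z * dbar k (fun y => (starRingEnd ℂ) (v y)) z -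
        (W θ z : ℂ) * F k z * dbar j (fun y => (starRingEnd ℂ) (v y)) z := by
    intro z
    rw [dbar_conj, dbar_conj]
    have e1 : ∀ i, (starRingEnd ℂ) (gen θ j k v i z) * F i z =
        (if i = j then (W θ z : ℂ) * F i z * (starRingEnd ℂ) (dz k v z) else 0) -
        (if i = k then (W θ z : ℂ) * F i z * (starRingEnd ℂ) (dz j v z) else 0) := by
      intro i
      unfold gen
      have c1 : (starRingEnd ℂ) (if i = j then dz k v z else 0) =
          if i = j then (starRingEnd ℂ) (dz k v z) else 0 := by split_ifs <;> simp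
      have c2 : (starRingEnd ℂ) (if i = k then dz j v z else 0) =
          if i = k then (starRingEnd ℂ) (dz j v z) else 0 := by split_ifs <;> simp
      rw [map_mul, map_sub, Complex.conj_ofReal, c1, c2]
      split_ifs <;> ring
    simp only [e1]
    rw [Finset.sum_sub_distrib]
    simp
  simp only [e]
  refine int_D fun z hz => ?_
  rw [(hv.conj.dbar k).zero_of_notMem hz, (hv.conj.dbar j).zero_of_notMem hz]
  ring

/-- the closure of the range of the adjoint of the next operator -/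
noncomputable def NN (n : ℕ) (D : Set (E n)) (hD : IsOpen D) (θ : E n → ℝ)
    (hθ : ContDiffOn ℝ ∞ θ D) : Submodule ℂ (HH n D) :=
  Submodule.span ℂ {x | ∃ (j k : Fin n) (v : E n → ℂ) (hv : IsTest D v),
    x = tv D (gen θ j k v) (gen_memLp hD hθ j k hv)}

theorem mem_NN (hD : IsOpen D) {θ : E n → ℝ} (hθ : ContDiffOn ℝ ∞ θ D) {F : Fin n → E n → ℂ}
    (hF : ∀ j, MemLp (F j) 2 (volume.restrict D)) :
    tv D F hF ∈ (NN n D hD θ hθ)ᗮ ↔ WCl D (fun j z => (W θ z : ℂ) * F j z) := by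
  constructor
  · intro h j k ψ hψ
    have h1 := (Submodule.mem_orthogonal _ _).mp h _
      (Submodule.subset_span ⟨j, k, _, hψ.conj, rfl⟩)
    rw [inner_gen hD hθ j k hψ.conj hF] at h1
    simp only [Complex.conj_conj] at h1
    exact sub_eq_zero.mp h1
  · intro h
    rw [Submodule.mem_orthogonal]
    intro u hu
    refine Submodule.span_induction (p := fun u _ => inner ℂ u (tv D F hF) = 0) ?_ ?_ ?_ ?_ hu
    · rintro x ⟨j, k, v, hv, rfl⟩
      rw [inner_gen hD hθ j k hv hF]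
      exact sub_eq_zero.mpr (h j k _ hv.conj)
    · exact inner_zero_left _
    · intro x y _ _ hx hy
      rw [inner_add_left, hx, hy, add_zero]
    · intro c x _ hx
      rw [inner_smul_left, hx, mul_zero]


/-! ### test forms -/

/-- test forms -/
def TF (n : ℕ) (D : Set (E n)) : Submodule ℂ (Fin n → E n → ℂ) where
  carrier := {v | ∀ j, IsTest D (v j)}
  zero_mem' := fun _ => IsTest.zero D
  add_mem' := fun ha hb j => (ha j).add (hb j)
  smul_mem' := fun c _ hv j => (hv j).const_mul c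

theorem av_memLp (hD : IsOpen D) {θ : E n → ℝ} (hθ : ContDiffOn ℝ ∞ θ D) (v : TF n D)
    (j : Fin n) : MemLp (fun z => (W θ z : ℂ) * v.1 j z) 2 (volume.restrict D) :=
  (((v.2 j).mul hD (W_smooth hθ)).memLp 2).restrict D

/-- `v ↦ v e^{θ/2}` -/
noncomputable def aMap (hD : IsOpen D) {θ : E n → ℝ} (hθ : ContDiffOn ℝ ∞ θ D) :
    TF n D →ₗ[ℂ] HH n D where
  toFun v := tv D (fun j z => (W θ z : ℂ) * v.1 j z) (av_memLp hD hθ v)
  map_add' v w := tv_add _ _ _ (fun j z => by
    show (W θ z : ℂ) * (v.1 j z + w.1 j z) = _; ring)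
  map_smul' c v := tv_smul c _ _ (fun j z => by
    show (W θ z : ℂ) * (c * v.1 j z) = _; ring)

/-- divergence -/
noncomputable def dv (v : Fin n → E n → ℂ) (z : E n) : ℂ := ∑ j, dz j (v j) z

theorem test_sum (s : Finset (Fin n)) (f : Fin n → E n → ℂ) (h : ∀ j, IsTest D (f j)) :
    IsTest D (fun z => ∑ j ∈ s, f j z) := by
  classical
  induction s using Finset.induction_on with
  | empty => simpa using IsTest.zero D
  | insert i s his ih =>
    simp only [Finset.sum_insert his]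
    exact (h i).add ih

theorem dv_test (v : TF n D) : IsTest D (dv v.1) :=
  test_sum Finset.univ (fun j => dz j (v.1 j)) fun j => (v.2 j).dz j

theorem dv_add (v w : TF n D) (z : E n) : dv (v + w).1 z = dv v.1 z + dv w.1 z := by
  unfold dv
  rw [← Finset.sum_add_distrib]
  refine Finset.sum_congr rfl fun j _ => ?_
  exact dz_add ((v.2 j).differentiable z) ((w.2 j).differentiable z)

theorem dv_smul (c : ℂ) (v : TF n D) (z : E n) : dv (c • v).1 z = c * dv v.1 z := by
  unfold dv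
  rw [Finset.mul_sum]
  refine Finset.sum_congr rfl fun j _ => ?_
  exact dz_const_mul c ((v.2 j).differentiable z)

/-- the function which represents `T v` -/
noncomputable def Tf (θ : E n → ℝ) (v : Fin n → E n → ℂ) (z : E n) : ℂ :=
  -((W θ z : ℂ) * dv v z)

theorem Tf_test (hD : IsOpen D) {θ : E n → ℝ} (hθ : ContDiffOn ℝ ∞ θ D) (v : TF n D) :
    IsTest D (Tf θ v.1) :=
  ((dv_test v).mul hD (W_smooth hθ)).neg

theorem Tf_memLp (hD : IsOpen D) {θ : E n → ℝ} (hθ : ContDiffOn ℝ ∞ θ D) (v : TF n D) :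
    MemLp (Tf θ v.1) 2 (volume.restrict D) :=
  ((Tf_test hD hθ v).memLp 2).restrict D

theorem toLp_add' {F G K : E n → ℂ} (hF : MemLp F 2 (volume.restrict D))
    (hG : MemLp G 2 (volume.restrict D)) (hK : MemLp K 2 (volume.restrict D))
    (h : ∀ z, K z = F z + G z) : hK.toLp K = hF.toLp F + hG.toLp G := by
  have e : K = fun z => F z + G z := by funext z; exact h z
  subst e
  rfl

theorem toLp_smul' {F K : E n → ℂ} (c : ℂ) (hF : MemLp F 2 (volume.restrict D))
    (hK : MemLp K 2 (volume.restrict D))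
    (h : ∀ z, K z = c * F z) : hK.toLp K = c • hF.toLp F := by
  have e : K = fun z => c * F z := by funext z; exact h z
  subst e
  rfl

/-- the operator `T` -/
noncomputable def TMap (hD : IsOpen D) {θ : E n → ℝ} (hθ : ContDiffOn ℝ ∞ θ D) :
    TF n D →ₗ[ℂ] HF n D where
  toFun v := (Tf_memLp hD hθ v).toLp (Tf θ v.1)
  map_add' v w := toLp_add' _ _ _ (fun z => by
    unfold Tf; rw [dv_add]; ring)
  map_smul' c v := toLp_smul' c _ _ (fun z => by
    unfold Tf; rw [dv_smul]; ring)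

theorem wcl_dbar (hD : IsOpen D) {w : E n → ℂ} (hw : IsTest D w) :
    WCl D (fun j z => dbar j w z) := by
  intro j k ψ hψ
  have h1 := integral_mul_dbar (f := dbar j w) hD
    (((hw.dbar j).sm.of_le (by simp)).contDiffOn) hψ k
  have h2 := integral_mul_dbar (f := dbar k w) hD
    (((hw.dbar k).sm.of_le (by simp)).contDiffOn) hψ j
  rw [h1, h2]
  congr 1
  refine integral_congr_ae (Eventually.of_forall fun z => ?_)
  show dbar k (dbar j w) z * ψ z = dbar j (dbar k w) z * ψ z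
  rw [dbar_dbar_comm ((hw.sm.of_le (show ((2 : ℕ∞) : WithTop ℕ∞) ≤ ((⊤ : ℕ∞) : WithTop ℕ∞) from
    WithTop.coe_le_coe.mpr le_top)).contDiffAt)]

theorem conj_dbar_conj (w : E n → ℂ) (j : Fin n) (z : E n) :
    (starRingEnd ℂ) (dbar j (fun y => (starRingEnd ℂ) (w y)) z) = dz j w z := by
  rw [dbar_conj, Complex.conj_conj]

theorem exp_neg_W (θ : E n → ℝ) (z : E n) :
    ((Real.exp (-θ z) : ℝ) : ℂ) = ((W θ z : ℝ) : ℂ)⁻¹ * ((W θ z : ℝ) : ℂ)⁻¹ := by
  rw [Real.exp_neg, ← W_sq]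
  push_cast
  rw [sq, mul_inv]

theorem normsq_W (θ : E n → ℝ) (z : E n) (x : ℂ) :
    ‖(W θ z : ℂ) * x‖ ^ 2 * Real.exp (-θ z) = ‖x‖ ^ 2 := by
  rw [norm_mul, Complex.norm_real,
    Real.norm_of_nonneg (show 0 ≤ W θ z from (Real.exp_pos _).le), mul_pow]
  have h : W θ z ^ 2 * Real.exp (-θ z) = 1 := by
    rw [W_sq, ← Real.exp_add, add_neg_cancel, Real.exp_zero]
  linear_combination ‖x‖ ^ 2 * h

theorem aesm_W (hD : IsOpen D) {θ : E n → ℝ} (hθ : ContDiffOn ℝ ∞ θ D) :
    AEStronglyMeasurable (fun z => (W θ z : ℂ)) (volume.restrict D) :=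
  (W_smooth hθ).continuousOn.aestronglyMeasurable hD.measurableSet


/-- the hypothesis of the duality lemma -/
theorem est (kl : KlStmt) {t : ℝ} {K : Set (E n)} {Φ ψ : E n → ℝ} {η : ℕ → E n → ℝ}
    (hW : Wt D t K Φ ψ η) (ht : 0 < t) (hθ : ContDiffOn ℝ ∞ (fun z => Φ z - ψ z) D)
    (hθ' : ContDiffOn ℝ ∞ (fun z => Φ z - 2 * ψ z) D) (v : TF n D) (f : HH n D)
    (hf : f ∈ (NN n D hW.op _ hθ)ᗮ) (hvf : aMap hW.op hθ v - f ∈ (NN n D hW.op _ hθ)ᗮᗮ) :
    ‖f‖ ≤ Real.sqrt (4 / t) * ‖TMap hW.op hθ' v‖ := by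
  have hD := hW.op
  obtain ⟨F, hF, rfl⟩ := exists_rep f
  have hcl := (mem_NN hD hθ hF).mp hf
  -- abbreviations
  have hT : ‖TMap hD hθ' v‖ ^ 2 = ∫ z in D, ‖Tf (fun z => Φ z - 2 * ψ z) v.1 z‖ ^ 2 := by
    rw [norm_sq_lp]
    refine integral_congr_ae ?_
    filter_upwards [(Tf_memLp hD hθ' v).coeFn_toLp] with z h1
    have : (TMap hD hθ' v : E n → ℂ) z = Tf (fun z => Φ z - 2 * ψ z) v.1 z := h1
    rw [this]
  have eh : ∀ z, ‖-(dv v.1 z * ((Real.exp (Φ z - 2 * ψ z) : ℝ) : ℂ))‖ ^ 2 *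
      Real.exp (-(Φ z - 2 * ψ z)) = ‖Tf (fun z => Φ z - 2 * ψ z) v.1 z‖ ^ 2 := by
    intro z
    have h1 := normsq_W (fun z => Φ z - 2 * ψ z) z (Tf (fun z => Φ z - 2 * ψ z) v.1 z)
    rw [← h1]
    congr 3
    unfold Tf
    rw [← W_sq (fun z => Φ z - 2 * ψ z) z]
    push_cast
    ring
  have eF : ∀ j z, ‖(W (fun z => Φ z - ψ z) z : ℂ) * F j z‖ ^ 2 * Real.exp (-(Φ z - ψ z)) =
      ‖F j z‖ ^ 2 := fun j z => normsq_W (fun z => Φ z - ψ z) z (F j z)
  have hhint : IntegrableOn (fun z => ‖Tf (fun z => Φ z - 2 * ψ z) v.1 z‖ ^ 2) D :=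
    (memLp_two_iff_integrable_sq_norm (Tf_memLp hD hθ' v).1).mp (Tf_memLp hD hθ' v)
  have key := kl n D t K Φ ψ η hW ht (fun j z => (W (fun z => Φ z - ψ z) z : ℂ) * F j z)
    (fun z => -(dv v.1 z * ((Real.exp (Φ z - 2 * ψ z) : ℝ) : ℂ)))
    (fun j => (aesm_W hD hθ).mul (hF j).1) ?_ ?_ ?_ hcl ?_
  · have e1 : (∫ z in D, (∑ j, ‖(W (fun z => Φ z - ψ z) z : ℂ) * F j z‖ ^ 2) *
        Real.exp (-(Φ z - ψ z))) = ‖tv D F hF‖ ^ 2 := by
      rw [norm_tv]
      refine integral_congr_ae (Eventually.of_forall fun z => ?_)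
      show (∑ j, _) * _ = _
      rw [Finset.sum_mul]
      exact Finset.sum_congr rfl fun j _ => eF j z
    rw [e1] at key
    simp only [eh] at key
    rw [← hT] at key
    have h2 : ‖tv D F hF‖ ^ 2 ≤ (Real.sqrt (4 / t) * ‖TMap hD hθ' v‖) ^ 2 := by
      rw [mul_pow, Real.sq_sqrt (by positivity), div_mul_eq_mul_div, le_div_iff₀ ht]
      linarith
    exact (sq_le_sq₀ (norm_nonneg _) (by positivity)).mp h2
  · have h1 : ContinuousOn (fun z => ((Real.exp (Φ z - 2 * ψ z) : ℝ) : ℂ)) D :=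
      Complex.continuous_ofReal.comp_continuousOn hθ'.continuousOn.rexp
    exact (((dv_test v).continuous.continuousOn.mul h1).neg).aestronglyMeasurable
      hD.measurableSet
  · intro j
    simp only [eF]
    exact (memLp_two_iff_integrable_sq_norm (hF j).1).mp (hF j)
  · simp only [eh]
    exact hhint
  · intro w hw
    -- the test element
    have hX : ∀ j, IsTest D (fun z => ((W (fun z => Φ z - ψ z) z : ℝ) : ℂ)⁻¹ *
        dbar j (fun y => (starRingEnd ℂ) (w y)) z) := fun j =>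
      (hw.conj.dbar j).mul hD (W_inv_smooth hθ)
    have hXm : ∀ j, MemLp (fun z => ((W (fun z => Φ z - ψ z) z : ℝ) : ℂ)⁻¹ *
        dbar j (fun y => (starRingEnd ℂ) (w y)) z) 2 (volume.restrict D) := fun j =>
      ((hX j).memLp 2).restrict D
    have hXN : tv D _ hXm ∈ (NN n D hD _ hθ)ᗮ := by
      refine (mem_NN hD hθ hXm).mpr ?_
      have e : (fun (j : Fin n) z => (W (fun z => Φ z - ψ z) z : ℂ) *
          (((W (fun z => Φ z - ψ z) z : ℝ) : ℂ)⁻¹ *
          dbar j (fun y => (starRingEnd ℂ) (w y)) z)) =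
          fun j z => dbar j (fun y => (starRingEnd ℂ) (w y)) z := by
        funext j z
        rw [← mul_assoc, mul_inv_cancel₀ (W_ne _ z), one_mul]
      rw [e]
      exact wcl_dbar hD hw.conj
    have h1 := (Submodule.mem_orthogonal _ _).mp hvf _ hXN
    rw [inner_sub_right, sub_eq_zero] at h1
    have h2 : inner ℂ (tv D _ hXm) (aMap hD hθ v) =
        ∫ z in D, ∑ j, (starRingEnd ℂ) (((W (fun z => Φ z - ψ z) z : ℝ) : ℂ)⁻¹ *
          dbar j (fun y => (starRingEnd ℂ) (w y)) z) *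
          ((W (fun z => Φ z - ψ z) z : ℂ) * v.1 j z) := inner_tv hXm (av_memLp hD hθ v)
    rw [h2, inner_tv hXm hF] at h1
    have e1 : ∀ z, ∑ j, (starRingEnd ℂ) (((W (fun z => Φ z - ψ z) z : ℝ) : ℂ)⁻¹ *
          dbar j (fun y => (starRingEnd ℂ) (w y)) z) *
          ((W (fun z => Φ z - ψ z) z : ℂ) * v.1 j z) = ∑ j, v.1 j z * dz j w z := by
      intro z
      refine Finset.sum_congr rfl fun j _ => ?_
      rw [map_mul, conj_dbar_conj, map_inv₀, Complex.conj_ofReal]
      have := W_ne (fun z => Φ z - ψ z) z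
      field_simp
    have e2 : ∀ z, ∑ j, (starRingEnd ℂ) (((W (fun z => Φ z - ψ z) z : ℝ) : ℂ)⁻¹ *
          dbar j (fun y => (starRingEnd ℂ) (w y)) z) * F j z =
        (∑ j, (W (fun z => Φ z - ψ z) z : ℂ) * F j z * dz j w z) *
          ((Real.exp (-(Φ z - ψ z)) : ℝ) : ℂ) := by
      intro z
      rw [exp_neg_W (fun z => Φ z - ψ z) z, Finset.sum_mul]
      refine Finset.sum_congr rfl fun j _ => ?_
      rw [map_mul, conj_dbar_conj, map_inv₀, Complex.conj_ofReal]
      have := W_ne (fun z => Φ z - ψ z) z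
      field_simp
    simp only [e1, e2] at h1
    rw [int_D (fun z hz => by
      refine Finset.sum_eq_zero fun j _ => ?_
      rw [(v.2 j).zero_of_notMem hz, zero_mul]), int_D (fun z hz => by
      rw [Finset.sum_eq_zero (fun j _ => by rw [(hw.dz j).zero_of_notMem hz, mul_zero]),
        zero_mul])] at h1
    rw [← h1, integral_finsetSum _ (fun j _ => ?_)]
    · have h3 : ∀ j, ∫ z, v.1 j z * dz j w z = - ∫ z, dz j (v.1 j) z * w z := fun j =>
        integral_mul_dz hD ((v.2 j).sm.of_le (by simp)).contDiffOn hw j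
      simp only [h3]
      rw [Finset.sum_neg_distrib, ← integral_finsetSum _ (fun j _ => ?_), ← integral_neg]
      · refine integral_congr_ae (Eventually.of_forall fun z => ?_)
        show -∑ j, dz j (v.1 j) z * w z = -(dv v.1 z * ((Real.exp (Φ z - 2 * ψ z) : ℝ) : ℂ)) *
          w z * ((Real.exp (-(Φ z - 2 * ψ z)) : ℝ) : ℂ)
        have e3 : ((Real.exp (Φ z - 2 * ψ z) : ℝ) : ℂ) *
            ((Real.exp (-(Φ z - 2 * ψ z)) : ℝ) : ℂ) = 1 := by
          rw [← Complex.ofReal_mul, ← Real.exp_add, add_neg_cancel, Real.exp_zero,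
            Complex.ofReal_one]
        rw [← Finset.sum_mul]
        change -(dv v.1 z * w z) = _
        linear_combination (dv v.1 z * w z) * e3
      · exact integrable_contOn_mul_test hD ((v.2 j).dz j).continuous.continuousOn hw
    · exact integrable_contOn_mul_test hD (v.2 j).continuous.continuousOn (hw.dz j)

theorem nsq_nonneg (z : E n) : 0 ≤ nsq z := Finset.sum_nonneg fun _ _ => by positivity

theorem g_memLp {t : ℝ} {K : Set (E n)} {Φ ψ : E n → ℝ} {η : ℕ → E n → ℝ}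
    (hW : Wt D t K Φ ψ η) (ht : 0 < t) (hθ : ContDiffOn ℝ ∞ (fun z => Φ z - ψ z) D)
    {g : E n → ℂ} (hg : MemLp g 2 volume) :
    MemLp (fun z => ((W (fun z => Φ z - ψ z) z : ℝ) : ℂ)⁻¹ * g z) 2 (volume.restrict D) := by
  have hD := hW.op
  refine MemLp.of_le (hg.restrict D) (((W_inv_smooth hθ).continuousOn.aestronglyMeasurable
    hD.measurableSet).mul (hg.restrict D).1) ?_
  refine ae_restrict_of_forall_mem hD.measurableSet fun z hz => ?_
  rw [norm_mul, norm_inv, Complex.norm_real]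
  have h1 : (1 : ℝ) ≤ W (fun z => Φ z - ψ z) z := by
    unfold W
    refine Real.one_le_exp ?_
    have := hW.dom z hz
    have := mul_nonneg ht.le (nsq_nonneg z)
    show 0 ≤ (Φ z - ψ z) / 2
    linarith
  rw [Real.norm_of_nonneg (by linarith)]
  calc (W (fun z => Φ z - ψ z) z)⁻¹ * ‖g z‖ ≤ 1 * ‖g z‖ :=
        mul_le_mul_of_nonneg_right (inv_le_one_of_one_le₀ h1) (norm_nonneg _)
    _ = ‖g z‖ := one_mul _

theorem dual (kl : KlStmt) (abs : AbsStmt) : DualStmt := by
  intro n D t K Φ ψ η hW ht g hg hcl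
  have hD := hW.op
  have hθ : ContDiffOn ℝ ∞ (fun z => Φ z - ψ z) D := hW.smΦ.sub hW.smψ
  have hθ' : ContDiffOn ℝ ∞ (fun z => Φ z - 2 * ψ z) D :=
    hW.smΦ.sub (contDiffOn_const.mul hW.smψ)
  have hG : ∀ j, MemLp (fun z => ((W (fun z => Φ z - ψ z) z : ℝ) : ℂ)⁻¹ * g j z) 2
      (volume.restrict D) := fun j => g_memLp hW ht hθ (hg j)
  have hGN : tv D _ hG ∈ (NN n D hD _ hθ)ᗮ := by
    refine (mem_NN hD hθ hG).mpr ?_
    have e : (fun (j : Fin n) z => (W (fun z => Φ z - ψ z) z : ℂ) *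
        (((W (fun z => Φ z - ψ z) z : ℝ) : ℂ)⁻¹ * g j z)) = g := by
      funext j z
      rw [← mul_assoc, mul_inv_cancel₀ (W_ne _ z), one_mul]
    rw [e]
    exact hcl
  obtain ⟨U, hU1, hU2⟩ := abs (HH n D) (HF n D) (TF n D) (aMap hD hθ) (TMap hD hθ')
    (NN n D hD _ hθ) (tv D _ hG) (Real.sqrt (4 / t)) (Real.sqrt_nonneg _) hGN
    (fun v f hf hvf => est kl hW ht hθ hθ' v f hf hvf)
  have eU : ∀ z, ‖(W (fun z => Φ z - 2 * ψ z) z : ℂ) * U z‖ ^ 2 *
      Real.exp (-(Φ z - 2 * ψ z)) = ‖U z‖ ^ 2 := fun z =>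
    normsq_W (fun z => Φ z - 2 * ψ z) z (U z)
  refine ⟨fun z => (W (fun z => Φ z - 2 * ψ z) z : ℂ) * U z,
    (aesm_W hD hθ').mul (Lp.aestronglyMeasurable U), ?_, ?_, ?_⟩
  · simp only [eU]
    exact (memLp_two_iff_integrable_sq_norm (Lp.memLp U).1).mp (Lp.memLp U)
  · intro j w hw
    -- the test form
    have hv : ∀ i, IsTest D ((fun i : Fin n => if i = j then (fun y => (starRingEnd ℂ) (w y))
        else fun _ => (0 : ℂ)) i) := by
      intro i
      by_cases h : i = j
      · simp only [if_pos h]; exact hw.conj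
      · simp only [if_neg h]; exact IsTest.zero D
    have h1 := hU2 ⟨fun i : Fin n => if i = j then (fun y => (starRingEnd ℂ) (w y))
        else fun _ => (0 : ℂ), hv⟩
    have hdv : ∀ z, dv (fun i : Fin n => if i = j then (fun y => (starRingEnd ℂ) (w y))
        else fun _ => (0 : ℂ)) z = dz j (fun y => (starRingEnd ℂ) (w y)) z := by
      intro z
      unfold dv
      rw [Finset.sum_eq_single j]
      · simp
      · intro b _ hb
        simp only [if_neg hb]
        exact dz_const 0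
      · intro h; exact absurd (Finset.mem_univ j) h
    have h2 : inner ℂ (TMap hD hθ' ⟨fun i : Fin n => if i = j then
        (fun y => (starRingEnd ℂ) (w y)) else fun _ => (0 : ℂ), hv⟩) U =
        - ∫ z, (W (fun z => Φ z - 2 * ψ z) z : ℂ) * U z * dbar j w z := by
      rw [L2.inner_def, ← integral_neg, ← int_D (fun z hz => by
        rw [(hw.dbar j).zero_of_notMem hz, mul_zero, neg_zero])]
      refine integral_congr_ae ?_
      filter_upwards [(Tf_memLp hD hθ' ⟨fun i : Fin n => if i = j then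
        (fun y => (starRingEnd ℂ) (w y)) else fun _ => (0 : ℂ), hv⟩).coeFn_toLp] with z hz
      have e : (TMap hD hθ' ⟨fun i : Fin n => if i = j then
        (fun y => (starRingEnd ℂ) (w y)) else fun _ => (0 : ℂ), hv⟩ : E n → ℂ) z =
        -((W (fun z => Φ z - 2 * ψ z) z : ℂ) * dz j (fun y => (starRingEnd ℂ) (w y)) z) := by
        refine Eq.trans hz ?_
        unfold Tf
        rw [hdv]
      rw [e, RCLike.inner_apply, map_neg, map_mul, Complex.conj_ofReal, dz_conj,
        Complex.conj_conj]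
      ring
    have h3 : inner ℂ (aMap hD hθ ⟨fun i : Fin n => if i = j then
        (fun y => (starRingEnd ℂ) (w y)) else fun _ => (0 : ℂ), hv⟩) (tv D _ hG) =
        ∫ z, g j z * w z := by
      have h4 : inner ℂ (aMap hD hθ ⟨fun i : Fin n => if i = j then
        (fun y => (starRingEnd ℂ) (w y)) else fun _ => (0 : ℂ), hv⟩) (tv D _ hG) =
        ∫ z in D, ∑ i, (starRingEnd ℂ) ((W (fun z => Φ z - ψ z) z : ℂ) *
          (fun i : Fin n => if i = j then (fun y => (starRingEnd ℂ) (w y))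
            else fun _ => (0 : ℂ)) i z) *
          (((W (fun z => Φ z - ψ z) z : ℝ) : ℂ)⁻¹ * g i z) :=
        inner_tv (av_memLp hD hθ _) hG
      rw [h4, ← int_D (fun z hz => by rw [hw.zero_of_notMem hz, mul_zero])]
      refine integral_congr_ae (Eventually.of_forall fun z => ?_)
      show ∑ i, _ = g j z * w z
      rw [Finset.sum_eq_single j]
      · simp only [if_true]
        rw [map_mul, Complex.conj_conj, Complex.conj_ofReal]
        have := W_ne (fun z => Φ z - ψ z) z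
        field_simp
      · intro b _ hb
        simp only [if_neg hb]
        simp
      · intro h; exact absurd (Finset.mem_univ j) h
    rw [h2, h3] at h1
    rw [← h1, neg_neg]
  · simp only [eU]
    rw [← norm_sq_lp]
    have h1 : ‖U‖ ^ 2 ≤ (Real.sqrt (4 / t) * ‖tv D _ hG‖) ^ 2 :=
      pow_le_pow_left₀ (norm_nonneg _) hU1 2
    rw [mul_pow, Real.sq_sqrt (by positivity), norm_tv] at h1
    refine h1.trans (le_of_eq ?_)
    congr 1
    refine integral_congr_ae (Eventually.of_forall fun z => ?_)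
    show ∑ j, _ = (∑ j, _) * _
    rw [Finset.sum_mul]
    refine Finset.sum_congr rfl fun j _ => ?_
    have h2 := normsq_W (fun z => Φ z - ψ z) z (((W (fun z => Φ z - ψ z) z : ℝ) : ℂ)⁻¹ * g j z)
    rw [← mul_assoc, mul_inv_cancel₀ (W_ne _ z), one_mul] at h2
    exact h2.symm

end Pool.Agent.DK.H9
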